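import Pool.Agent.H.MP_36ad39.A

set_option autoImplicit false

open Set Filter Topology TopologicalSpace

namespace Pool.Agent.Results.MP_a55298_gt.NoUniv
open Pool.Agent.H.MP_36ad39
universe u v w

lemma key {X : Type u} {Y : Type v} [TopologicalSpace X] [MetricSpace Y] (A : Set ℝ)
    (e : C(A, ℝ) → C(X, Y)) (he : IsInducing e) : ∃ φ : Compacts X → ℕ → Set ℝ,
      (∀ n K K', K ≤ K' → φ K n ⊆ φ K' n) ∧ (∀ K n, closure (φ K n) ⊆ A) ∧
        ∀ a ∈ A, ∃ K n, a ∈ φ K n := by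
  refine ⟨fun K n => {y | ∃ h : y ∈ A, ∀ g, (∀ x ∈ K, dist (e g x) (e 0 x) < 1 / ((n : ℝ) + 1)) →
    |g ⟨y, h⟩| ≤ 1}, fun n K K' h y ⟨h1, h2⟩ => ⟨h1, fun g hg => h2 g fun x hx => hg x (h hx)⟩,
    fun K n => ?_, fun a ha => ?_⟩
  · obtain ⟨⟨L, m⟩, ⟨hL, -⟩, h⟩ := (basis (0 : C(A, ℝ))).mem_iff.1
      (he.continuous.continuousAt ((basis (e 0)).mem_of_mem (i := ((K : Set X), n))
        ⟨K.isCompact, trivial⟩))
    refine (closure_minimal ?_ (hL.image continuous_subtype_val).isClosed).trans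
      (Subtype.coe_image_subset A L)
    rintro y ⟨h1, h2⟩
    refine ⟨⟨y, h1⟩, by_contra fun h3 => ?_, rfl⟩
    obtain ⟨g, h4, h5, -⟩ := exists_continuous_zero_one_of_isClosed hL.isClosed
      (isClosed_singleton (x := ⟨y, h1⟩)) (disjoint_singleton_right.2 h3)
    have := h2 (g + g) (h fun x hx => by simp [h4 hx]; positivity)
    norm_num [h5 rfl] at this
  · have h : {g : C(A, ℝ) | |g ⟨a, ha⟩| < 1} ∈ 𝓝 0 :=
      (isOpen_lt (by fun_prop) continuous_const).mem_nhds (by simp)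
    rw [he.nhds_eq_comap] at h
    obtain ⟨⟨K, n⟩, ⟨hK, -⟩, h⟩ := ((basis (e 0)).comap e).mem_iff.1 h
    exact ⟨⟨K, hK⟩, n, ha, fun g hg => le_of_lt (h hg)⟩

theorem result (U : Type w) [TopologicalSpace U] (X : Type u) (Y : Type v) [TopologicalSpace X]
    [TopologicalSpace Y] [MetrizableSpace X] [SeparableSpace X] [MetrizableSpace Y]
    (e : U → C(X, Y)) (he : IsEmbedding e) :
    ∃ A : Set ℝ, ¬∃ f : C(A, ℝ) → U, IsEmbedding f := by
  by_contra! h
  choose f hf using h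
  let := metrizableSpaceMetric X
  let := metrizableSpaceMetric Y
  have : SecondCountableTopology X := UniformSpace.secondCountable_of_separable X
  choose φ h1 h2 h3 using fun A => key A _ (he.comp (hf A)).isInducing
  exact count φ h1 h2 h3

end Pool.Agent.Results.MP_a55298_gt.NoUniv
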